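import Pool.Agent.Lib.MP_1c334d_co.Main

/-!
# A neighborly 4-polytope that is not extendable
-/

namespace Pool.Agent.Results.MP_1c334d_co.NotExtendable

open Pool.Agent.Lib.MP_1c334d_co

/-- There is a neighborly 4-polytope with 14 vertices that is not extendable: no neighborly
4-polytope with 15 vertices has a vertex such that the convex hull of the other 14 vertices is
combinatorially equivalent to it. -/
theorem result : ∃ P : Set (Euc 4), IsPolytope 4 P ∧ Neighborly 4 P ∧ (vert P).ncard = 14 ∧
    ¬ Extendable 4 P :=
  ⟨P14, isPolytope_P14, neighborly_P14, ncard_vert_P14, not_extendable_P14⟩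

end Pool.Agent.Results.MP_1c334d_co.NotExtendable
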